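import Pool.Agent.Helper5.LCU.Stmts
import Pool.Agent.Helper14.UB.SURC

/-!
# Complete uniform hypergraphs: counting
-/

set_option autoImplicit false

open Finset Pool.Agent.Helper89.UB

namespace Pool.Agent.Helper5.LCU

theorem uf1_coeff (r i : ℕ) :
    (FR r).coeff i = if 1 ≤ i ∧ i < r then 1 / (i.factorial : ℝ) else 0 := by
  unfold FR
  rw [Polynomial.finsetSum_coeff]
  simp only [Polynomial.coeff_monomial]
  rw [Finset.sum_ite_eq' (Ico 1 r) i (fun k => 1 / (k.factorial : ℝ))]
  simp only [mem_Ico]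

theorem uf1_fp {n : ℕ} {E : Finset (Finset (Fin n))} {S : Finset (Fin n)} {r : ℕ}
    (hE : ∀ X ⊆ S, (∃ e ∈ E, e ⊆ X) ↔ r ≤ X.card) {X : Finset (Fin n)} (hX : X ⊆ S) :
    (fp E X : ℝ) = if 1 ≤ X.card ∧ X.card < r then 1 else 0 := by
  have h : (X.Nonempty ∧ Al E X) ↔ (1 ≤ X.card ∧ X.card < r) := by
    rw [← Finset.card_pos]
    refine and_congr Iff.rfl ?_
    rw [← not_le, ← hE X hX]
    unfold Al
    push Not
    rfl
  unfold fp
  by_cases hh : X.Nonempty ∧ Al E X
  · rw [if_pos hh, if_pos (h.1 hh)]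
    norm_num
  · rw [if_neg hh, if_neg (fun k => hh (h.2 k))]
    norm_num

theorem st_UF1 : ST_UF1 := by
  intro n E S r hE m W hW
  have key : ∀ m : ℕ, ∀ W ⊆ S,
      ((pw (fp E) m W : ℤ) : ℝ) = (W.card.factorial : ℝ) * ((FR r) ^ m).coeff W.card := by
    intro m
    induction m with
    | zero =>
      intro W _
      rw [pow_zero, Polynomial.coeff_one]
      show (((if W = ∅ then 1 else 0 : ℤ)) : ℝ) = _
      by_cases h : W = ∅
      · subst h
        simp
      · rw [if_neg h, if_neg (by simpa using h)]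
        simp
    | succ m ih =>
      intro W hW
      obtain ⟨g, hg⟩ : ∃ g : ℕ → ℝ, ∀ k, g k = (if 1 ≤ k ∧ k < r then (1 : ℝ) else 0) *
            (((W.card - k).factorial : ℝ) * ((FR r) ^ m).coeff (W.card - k)) :=
        ⟨_, fun _ => rfl⟩
      have e1 : ((pw (fp E) (m + 1) W : ℤ) : ℝ) = ∑ X ∈ W.powerset, g X.card := by
        show ((∑ X ∈ W.powerset, fp E X * pw (fp E) m (W \ X) : ℤ) : ℝ) = _
        push_cast
        refine sum_congr rfl fun X hX => ?_
        have hXW := mem_powerset.1 hX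
        rw [uf1_fp hE (hXW.trans hW), ih (W \ X) (sdiff_subset.trans hW),
          card_sdiff_of_subset hXW, hg]
      rw [e1, sum_powerset_apply_card g, pow_succ', Polynomial.coeff_mul,
        Finset.Nat.sum_antidiagonal_eq_sum_range_succ_mk, mul_sum]
      refine sum_congr rfl fun k hk => ?_
      have hk' : k ≤ W.card := Nat.lt_succ_iff.1 (mem_range.1 hk)
      rw [nsmul_eq_mul, uf1_coeff, hg]
      by_cases h : 1 ≤ k ∧ k < r
      · rw [if_pos h, if_pos h]
        have h1 : (W.card.factorial : ℝ) =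
            (W.card.choose k : ℝ) * (k.factorial : ℝ) * ((W.card - k).factorial : ℝ) := by
          exact_mod_cast (Nat.choose_mul_factorial_mul_factorial hk').symm
        have h2 : (k.factorial : ℝ) ≠ 0 := by exact_mod_cast k.factorial_ne_zero
        rw [h1]
        field_simp
      · rw [if_neg h, if_neg h]
        ring
  rw [← key m W hW]
  have := Pool.Agent.Helper89.UB.st_SURC n E m W
  exact_mod_cast this

end Pool.Agent.Helper5.LCU
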